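import Mathlib

open Polynomial Finset

namespace MP78

/-- A nonzero polynomial with `s` terms has at most `s - 1` sign variations. -/
theorem signVar_succ_le_card : ∀ (n : ℕ) (P : Polynomial ℝ), P ≠ 0 → P.support.card = n →
    P.signVariations + 1 ≤ n := by
  intro n
  induction n with
  | zero =>
    intro P hP h
    exact absurd (by simpa using h) hP
  | succ n ih =>
    intro P hP h
    have hc : P.eraseLead.support.card = n := by
      rw [Polynomial.card_support_eraseLead, h]; rfl
    by_cases h0 : P.eraseLead = 0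
    · have := signVariations_eq_eraseLead_add_ite hP
      rw [h0] at this
      have hne : SignType.sign P.leadingCoeff ≠ 0 := by
        simpa [sign_eq_zero_iff] using hP
      simp at this
      rw [if_neg hP] at this
      omega
    · have h1 := ih _ h0 hc
      have h2 := signVariations_le_eraseLead_succ (P := P)
      omega

/-- No sign variation: all coefficients have the sign of the leading one. -/
theorem coeff_mul_nonneg : ∀ (n : ℕ) (P : Polynomial ℝ), P.support.card = n →
    P.signVariations = 0 → ∀ r, 0 ≤ P.leadingCoeff * P.coeff r := by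
  intro n
  induction n with
  | zero =>
    intro P h h0 r
    have : P = 0 := by simpa using h
    simp [this]
  | succ n ih =>
    intro P h h0 r
    have hP : P ≠ 0 := by
      rintro rfl
      simp at h
    have hc : P.eraseLead.support.card = n := by
      rw [Polynomial.card_support_eraseLead, h]; rfl
    have hs := signVariations_eq_eraseLead_add_ite hP
    rw [h0] at hs
    have hs1 : P.eraseLead.signVariations = 0 := by omega
    have hs2 : ¬ (SignType.sign P.leadingCoeff = -SignType.sign P.eraseLead.leadingCoeff) := by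
      intro hh
      rw [if_pos hh] at hs
      omega
    by_cases hr : r = P.natDegree
    · rw [hr]
      exact mul_self_nonneg _
    · have h1 : P.coeff r = P.eraseLead.coeff r := by
        rw [Polynomial.eraseLead_coeff_of_ne _ hr]
      rw [h1]
      by_cases he : P.eraseLead = 0
      · simp [he]
      have h2 := ih _ hc hs1 r
      have h3 : 0 < P.leadingCoeff * P.eraseLead.leadingCoeff := by
        have hl1 : P.leadingCoeff ≠ 0 := by simpa using hP
        have hl2 : P.eraseLead.leadingCoeff ≠ 0 := by simpa using he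
        rcases lt_or_gt_of_ne hl1 with a | a <;> rcases lt_or_gt_of_ne hl2 with b | b
        · exact mul_pos_of_neg_of_neg a b
        · exfalso; apply hs2
          rw [sign_neg a, sign_pos b]
        · exfalso; apply hs2
          rw [sign_pos a, sign_neg b]; rfl
        · exact mul_pos a b
      have h4 : 0 ≤ (P.leadingCoeff * P.eraseLead.leadingCoeff) *
          (P.eraseLead.leadingCoeff * P.eraseLead.coeff r) := mul_nonneg h3.le h2
      have h5 : (P.leadingCoeff * P.eraseLead.leadingCoeff) *
          (P.eraseLead.leadingCoeff * P.eraseLead.coeff r) =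
          (P.eraseLead.leadingCoeff) ^ 2 * (P.leadingCoeff * P.eraseLead.coeff r) := by ring
      rw [h5] at h4
      have hl2 : P.eraseLead.leadingCoeff ≠ 0 := by simpa using he
      have h6 : 0 < (P.eraseLead.leadingCoeff) ^ 2 := by positivity
      exact nonneg_of_mul_nonneg_right h4 h6

/-- Each positive root costs a sign variation. -/
theorem signVar_prod {ι : Type*} (s : Finset ι) (u : ι → ℝ) (hu : ∀ i ∈ s, 0 < u i)
    (q : Polynomial ℝ) (hq : q ≠ 0) :
    q.signVariations + s.card ≤ ((∏ i ∈ s, (X - C (u i))) * q).signVariations := by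
  classical
  induction s using Finset.induction_on with
  | empty => simp
  | insert a s ha ih =>
    rw [Finset.prod_insert ha, Finset.card_insert_of_notMem ha, mul_assoc]
    have h1 := ih (fun i hi => hu i (Finset.mem_insert_of_mem hi))
    have hne : (∏ i ∈ s, (X - C (u i))) * q ≠ 0 := by
      apply mul_ne_zero _ hq
      exact Finset.prod_ne_zero_iff.mpr (fun i _ => X_sub_C_ne_zero _)
    have h2 := succ_signVariations_le_X_sub_C_mul (η := u a)
      (hu a (Finset.mem_insert_self _ _)) hne
    omega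

/-- Distinct roots: the product of the linear factors divides. -/
theorem prod_dvd_of_roots {ι : Type*} (s : Finset ι) (u : ι → ℝ)
    (hinj : Set.InjOn u s) (g : Polynomial ℝ) (hg : ∀ i ∈ s, g.eval (u i) = 0) :
    (∏ i ∈ s, (X - C (u i))) ∣ g := by
  apply Finset.prod_dvd_of_coprime
  · intro i hi j hj hij
    apply pairwise_coprime_X_sub_C (s := fun t : ℝ => t) (fun _ _ h => h)
    intro h
    exact hij (hinj hi hj h)
  · intro i hi
    exact dvd_iff_isRoot.mpr (hg i hi)

/-- `p` is dominated coefficientwise by `P`. -/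
def Dom (p P : Polynomial ℝ) : Prop := ∀ n, |p.coeff n| ≤ P.coeff n

theorem Dom.mul {p P q Q : Polynomial ℝ} (h1 : Dom p P) (h2 : Dom q Q) : Dom (p * q) (P * Q) := by
  intro n
  rw [coeff_mul, coeff_mul]
  refine (Finset.abs_sum_le_sum_abs _ _).trans (Finset.sum_le_sum fun x _ => ?_)
  rw [abs_mul]
  exact mul_le_mul (h1 _) (h2 _) (abs_nonneg _) ((abs_nonneg _).trans (h1 _))

theorem Dom.one : Dom 1 1 := by
  intro n
  rw [coeff_one]
  split_ifs <;> simp

theorem Dom.prod {ι : Type*} (s : Finset ι) (p P : ι → Polynomial ℝ)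
    (h : ∀ i ∈ s, Dom (p i) (P i)) : Dom (∏ i ∈ s, p i) (∏ i ∈ s, P i) := by
  classical
  induction s using Finset.induction_on with
  | empty => simpa using Dom.one
  | insert a s ha ih =>
    rw [Finset.prod_insert ha, Finset.prod_insert ha]
    exact (h a (Finset.mem_insert_self _ _)).mul
      (ih fun i hi => h i (Finset.mem_insert_of_mem hi))

theorem Dom.lin {u : ℝ} (hu : 0 ≤ u) : Dom (X - C u) (X + C u) := by
  intro n
  rcases n with _ | n
  · simp [abs_of_nonneg hu]
  · rcases n with _ | n
    · simp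
    · simp [coeff_X]

theorem Dom.coeff_mul_pow_le {p P : Polynomial ℝ} (h : Dom p P) {u : ℝ} (hu : 0 ≤ u) (e : ℕ) :
    |p.coeff e| * u ^ e ≤ P.eval u := by
  have hP : ∀ n, 0 ≤ P.coeff n := fun n => (abs_nonneg _).trans (h n)
  have h1 : P.coeff e * u ^ e ≤ P.eval u := by
    rw [eval_eq_sum_range' (n := max (P.natDegree + 1) (e + 1)) (by omega)]
    refine Finset.single_le_sum (f := fun i => P.coeff i * u ^ i) (fun i _ => ?_) ?_
    · exact mul_nonneg (hP i) (pow_nonneg hu i)
    · simp
  exact (mul_le_mul_of_nonneg_right (h e) (pow_nonneg hu e)).trans h1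

/-- The key inequality: a sparse polynomial with the maximal number of positive roots. -/
theorem key_ineq {ι : Type*} (s : Finset ι) (u : ι → ℝ) (hu : ∀ i ∈ s, 0 < u i)
    (hinj : Set.InjOn u s) (g : Polynomial ℝ) (hg : ∀ i ∈ s, g.eval (u i) = 0)
    (hcard : g.support.card ≤ s.card + 1) {x : ℝ} (hx : 0 ≤ x) (e : ℕ) :
    |g.coeff e| * x ^ e * ∏ i ∈ s, |x - u i| ≤ (∏ i ∈ s, (x + u i)) * |g.eval x| := by
  by_cases hg0 : g = 0
  · simp [hg0]
  obtain ⟨q, hq⟩ := prod_dvd_of_roots s u hinj g hg
  have hq0 : q ≠ 0 := by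
    rintro rfl
    exact hg0 (by rw [hq, mul_zero])
  have h1 := signVar_prod s u hu q hq0
  rw [← hq] at h1
  have h2 := signVar_succ_le_card _ g hg0 rfl
  have h3 : q.signVariations = 0 := by omega
  have h4 := coeff_mul_nonneg _ q rfl h3
  set L := q.leadingCoeff with hL
  have hL0 : L ≠ 0 := by simpa [hL] using hq0
  set Q : Polynomial ℝ := C (L / |L|) * q with hQ
  have hcQ : ∀ n, Q.coeff n = |q.coeff n| := by
    intro n
    rw [hQ, coeff_C_mul]
    have h5 : L / |L| * q.coeff n = (L * q.coeff n) / |L| := by ring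
    rw [h5, ← abs_of_nonneg (h4 n), abs_mul]
    field_simp
  have hdq : Dom q Q := fun n => by rw [hcQ]
  have hdg : Dom g ((∏ i ∈ s, (X + C (u i))) * Q) := by
    rw [hq]
    exact (Dom.prod s _ _ fun i hi => Dom.lin (hu i hi).le).mul hdq
  have h6 := hdg.coeff_mul_pow_le hx e
  rw [eval_mul, eval_prod] at h6
  have h7 : Q.eval x = |q.eval x| := by
    have h8 : Q.eval x = L / |L| * q.eval x := by rw [hQ, eval_mul, eval_C]
    have h9 : 0 ≤ Q.eval x := by
      rw [eval_eq_sum_range]
      exact Finset.sum_nonneg fun i _ => mul_nonneg (by rw [hcQ]; exact abs_nonneg _)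
        (pow_nonneg hx i)
    rw [← abs_of_nonneg h9, h8, abs_mul, abs_div, abs_abs, div_self (abs_ne_zero.mpr hL0), one_mul]
  rw [h7] at h6
  have h10 : |g.eval x| = (∏ i ∈ s, |x - u i|) * |q.eval x| := by
    rw [hq, eval_mul, eval_prod, abs_mul, Finset.abs_prod]
    simp
  rw [h10]
  have h11 : (0:ℝ) ≤ ∏ i ∈ s, |x - u i| := Finset.prod_nonneg fun i _ => abs_nonneg _
  have h12 := mul_le_mul_of_nonneg_right h6 h11
  have h13 : (∏ i ∈ s, eval x (X + C (u i))) = ∏ i ∈ s, (x + u i) := by
    apply Finset.prod_congr rfl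
    intro i _
    simp
  rw [h13] at h12
  calc |g.coeff e| * x ^ e * ∏ i ∈ s, |x - u i|
      ≤ (∏ i ∈ s, (x + u i)) * |q.eval x| * ∏ i ∈ s, |x - u i| := h12
    _ = (∏ i ∈ s, (x + u i)) * ((∏ i ∈ s, |x - u i|) * |q.eval x|) := by ring

/-- The sparse polynomial with coefficients `v`. -/
noncomputable def sp {N : ℕ} (e : Fin N → ℕ) (v : Fin N → ℝ) : Polynomial ℝ :=
  ∑ i, monomial (e i) (v i)

theorem sp_coeff {N : ℕ} (e : Fin N → ℕ) (he : Function.Injective e) (v : Fin N → ℝ) (k : Fin N) :
    (sp e v).coeff (e k) = v k := by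
  classical
  simp only [sp, finsetSum_coeff, coeff_monomial]
  rw [Finset.sum_eq_single k]
  · simp
  · intro b _ hb
    rw [if_neg]
    exact fun h => hb (he h)
  · simp

theorem sp_eval {N : ℕ} (e : Fin N → ℕ) (v : Fin N → ℝ) (x : ℝ) :
    (sp e v).eval x = ∑ i, v i * x ^ e i := by
  simp [sp, eval_finsetSum, eval_monomial]

theorem sp_support_card {N : ℕ} (e : Fin N → ℕ) (v : Fin N → ℝ) :
    (sp e v).support.card ≤ N := by
  classical
  have h1 : (sp e v).support ⊆ Finset.univ.image e := by
    intro n hn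
    rw [mem_support_iff] at hn
    by_contra h
    apply hn
    simp only [sp, finsetSum_coeff, coeff_monomial]
    apply Finset.sum_eq_zero
    intro i _
    rw [if_neg]
    intro hi
    exact h (Finset.mem_image.mpr ⟨i, Finset.mem_univ _, hi⟩)
  calc (sp e v).support.card ≤ (Finset.univ.image e).card := Finset.card_le_card h1
    _ ≤ (Finset.univ : Finset (Fin N)).card := Finset.card_image_le
    _ = N := by simp

/-- The generalized Vandermonde matrix is invertible (Descartes). -/
theorem gv_det_ne_zero {N : ℕ} (e : Fin N → ℕ) (he : Function.Injective e) (u : Fin N → ℝ)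
    (hu : ∀ j, 0 < u j) (hinj : Function.Injective u) :
    (Matrix.of fun j i : Fin N => u j ^ e i).det ≠ 0 := by
  intro h
  obtain ⟨v, hv, hMv⟩ := Matrix.exists_mulVec_eq_zero_iff.mpr h
  have hg0 : sp e v ≠ 0 := by
    intro h0
    apply hv
    funext k
    rw [← sp_coeff e he v k, h0]
    simp
  have hroot : ∀ i ∈ (Finset.univ : Finset (Fin N)), (sp e v).eval (u i) = 0 := by
    intro j _
    have := congrFun hMv j
    rw [sp_eval]
    simp only [Matrix.mulVec, dotProduct, Matrix.of_apply, Pi.zero_apply] at this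
    rw [← this]
    exact Finset.sum_congr rfl fun i _ => mul_comm _ _
  obtain ⟨q, hq⟩ := prod_dvd_of_roots Finset.univ u hinj.injOn _ hroot
  have hq0 : q ≠ 0 := by
    rintro rfl
    exact hg0 (by rw [hq, mul_zero])
  have h1 := signVar_prod Finset.univ u (fun i _ => hu i) q hq0
  rw [← hq] at h1
  have h2 := signVar_succ_le_card _ _ hg0 rfl
  have h3 := sp_support_card e v
  simp only [Finset.card_univ, Fintype.card_fin] at h1
  omega

/-- Recovering one coefficient of a sparse polynomial from its values at positive points. -/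
theorem coeff_bound {N : ℕ} (e : Fin N → ℕ) (he : Function.Injective e) (u : Fin N → ℝ)
    (hu : ∀ j, 0 < u j) (hinj : Function.Injective u) (a : Fin N → ℂ) (k : Fin N) :
    ‖a k‖ ≤ ∑ j, ‖∑ i, a i * ((u j : ℝ) : ℂ) ^ e i‖ *
      ((u j ^ e k)⁻¹ * ∏ i ∈ Finset.univ.erase j, (u j + u i) / |u j - u i|) := by
  classical
  set M : Matrix (Fin N) (Fin N) ℝ := Matrix.of fun j i : Fin N => u j ^ e i with hM
  have hdet : IsUnit M.det := isUnit_iff_ne_zero.mpr (gv_det_ne_zero e he u hu hinj)
  have hMM : M * M⁻¹ = 1 := Matrix.mul_nonsing_inv _ hdet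
  have hMM' : M⁻¹ * M = 1 := Matrix.nonsing_inv_mul _ hdet
  have hw : ∀ j, |M⁻¹ k j| ≤ (u j ^ e k)⁻¹ *
      ∏ i ∈ Finset.univ.erase j, (u j + u i) / |u j - u i| := by
    intro j
    set v : Fin N → ℝ := fun i => M⁻¹ i j with hv
    have hev : ∀ l, (sp e v).eval (u l) = if l = j then 1 else 0 := by
      intro l
      rw [sp_eval]
      have h1 : (M * M⁻¹) l j = (1 : Matrix (Fin N) (Fin N) ℝ) l j := by rw [hMM]
      rw [Matrix.mul_apply, Matrix.one_apply] at h1
      rw [← h1]
      refine Finset.sum_congr rfl fun i _ => ?_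
      rw [hv, hM, Matrix.of_apply]
      ring
    have hk := key_ineq (Finset.univ.erase j) u (fun i _ => hu i) hinj.injOn (sp e v)
      (fun i hi => by rw [hev, if_neg (Finset.ne_of_mem_erase hi)])
      (by
        have h2 := sp_support_card e v
        have h3 : 0 < N := Fin.pos j
        rw [Finset.card_erase_of_mem (Finset.mem_univ _)]
        simp only [Finset.card_univ, Fintype.card_fin]
        omega) (hu j).le (e k)
    rw [sp_coeff e he v k, hev, if_pos rfl, abs_one, mul_one] at hk
    have hpos : 0 < ∏ i ∈ Finset.univ.erase j, |u j - u i| := by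
      apply Finset.prod_pos
      intro i hi
      rw [abs_pos, sub_ne_zero]
      exact fun h => (Finset.ne_of_mem_erase hi) (hinj h.symm)
    have hp2 : 0 < u j ^ e k := pow_pos (hu j) _
    rw [Finset.prod_div_distrib]
    rw [inv_mul_eq_div, div_div, le_div_iff₀ (mul_pos hpos hp2)]
    calc |M⁻¹ k j| * ((∏ i ∈ Finset.univ.erase j, |u j - u i|) * u j ^ e k)
        = |v k| * u j ^ e k * ∏ i ∈ Finset.univ.erase j, |u j - u i| := by
          rw [hv]; ring
      _ ≤ _ := hk
  have hak : a k = ∑ j, ((M⁻¹ k j : ℝ) : ℂ) * ∑ i, a i * ((u j : ℝ) : ℂ) ^ e i := by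
    have h1 : ∀ i, (∑ j, M⁻¹ k j * M j i) = if k = i then 1 else 0 := by
      intro i
      have h2 : (M⁻¹ * M) k i = (1 : Matrix (Fin N) (Fin N) ℝ) k i := by rw [hMM']
      rw [Matrix.mul_apply, Matrix.one_apply] at h2
      exact h2
    have h3 : ∑ j, ((M⁻¹ k j : ℝ) : ℂ) * ∑ i, a i * ((u j : ℝ) : ℂ) ^ e i
        = ∑ i, a i * ((∑ j, M⁻¹ k j * M j i : ℝ) : ℂ) := by
      simp_rw [Finset.mul_sum]
      rw [Finset.sum_comm]
      refine Finset.sum_congr rfl fun i _ => ?_
      push_cast
      rw [Finset.mul_sum]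
      refine Finset.sum_congr rfl fun j _ => ?_
      rw [hM, Matrix.of_apply]
      push_cast
      ring
    rw [h3, Finset.sum_eq_single k]
    · rw [h1 k, if_pos rfl]
      simp
    · intro b _ hb
      rw [h1 b, if_neg (Ne.symm hb)]
      simp
    · simp
  calc ‖a k‖ = ‖∑ j, ((M⁻¹ k j : ℝ) : ℂ) * ∑ i, a i * ((u j : ℝ) : ℂ) ^ e i‖ := by rw [← hak]
    _ ≤ ∑ j, ‖((M⁻¹ k j : ℝ) : ℂ) * ∑ i, a i * ((u j : ℝ) : ℂ) ^ e i‖ := norm_sum_le _ _
    _ ≤ _ := by
      refine Finset.sum_le_sum fun j _ => ?_
      rw [norm_mul, Complex.norm_real, Real.norm_eq_abs, mul_comm]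
      exact mul_le_mul_of_nonneg_left (hw j) (norm_nonneg _)

end MP78
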